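import Mathlib
import Pool.Agent.N678.EM.Emb

/-!
# Isometric embeddings between Schatten classes

Let `H` be an infinite-dimensional separable complex Hilbert space, `0 < q ≤ ∞`, and `0 < p ≤ 2` or `p = ∞`, `q ≠ p`. Then
`S_q(H)` embeds isometrically into `S_p(H)` if and only if `q = 2`. This settles the problem for all pairs
`(q, p)` of the region `R = (0, ∞] × (0, 1) ∪ (1, 4) × {1} ∪ (1, 2) × {∞}`.

Proof. For `q = 2` one maps `S_2(H)` isometrically to the operators of rank one with a fixed kernel. Conversely let `x`,
`x_1, x_2, ...` be the images of the diagonal matrix units, `‖x‖_p = 1`. There is a projection `P` of finite rank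
such that `P x P'` is close to `x`. If there are `y` in the span of `x_1, x_2, ...` with `‖y‖_p = 1` which are arbitrarily
small on the finite-dimensional parts of `P` and `P'`, then `x` and `y` are almost disjoint, so `‖x + y‖_p^p` is close to `2`
(`‖x + y‖` is close to `1` if `p = ∞`); but `‖x + y‖_p = 2^(1/q)`, therefore `q = p`. Otherwise the `ℓ_q`-norm is equivalent
to a Hilbertian seminorm on the span, and averaging over signs gives `q = 2`.

For `0 < p < 1` there is no triangle inequality; the continuity of `tr |X|^p` which is needed follows from McCarthy's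
inequality `tr |X+Y|^p + tr |X-Y|^p ≤ 2 tr |X|^p + 2 tr |Y|^p` for the arithmetic progression `X, X+Y, X+2Y, ...`.
-/

set_option autoImplicit false

namespace Pool.Agent.Results.MP_dcad15_an.OnlyHilbertSchmidt

open Pool.Agent.N678.EM
open scoped ENNReal

universe u

/-- **Isometric embeddings of `S_q(H)` into `S_p(H)`.** -/
theorem result {H : Type u} [NormedAddCommGroup H] [InnerProductSpace ℂ H] [CompleteSpace H]
    (c : HilbertBasis ℕ ℂ H) (q p : ℝ≥0∞) (hq : 0 < q) (hp : (0 < p ∧ p ≤ 2) ∨ p = ⊤)
    (hqp : q ≠ p) : Embeds c q p ↔ q = 2 := by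
  constructor
  · intro h
    rcases hp with ⟨hp0, hp2⟩ | hp
    · exact (no_two hq.ne' hp0.ne' hp2 h).resolve_right hqp
    · subst hp
      exact (no_inf hq.ne' h).resolve_right hqp
  · rintro rfl
    refine embeds_two c ?_
    rcases hp with ⟨hp0, _⟩ | hp
    · exact hp0.ne'
    · rw [hp]
      exact ENNReal.top_ne_zero

end Pool.Agent.Results.MP_dcad15_an.OnlyHilbertSchmidt
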